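import Pool.Agent.H416.LG.GE
import Pool.Agent.H416.LG.Cl2
import Pool.Agent.H416.DT.Det
import Pool.Agent.H640.DT_DT2
import Pool.Agent.H416.WR.Props

set_option autoImplicit false

/-!
# Chern characters and determinants of Whitehead elements, groups with linear centralisers

Let `G` be a torsion-free group. If `Wh(G) = 0`, then for every invertible matrix `u` over `ℤ[G]`
there is `γ ∈ G` such that all cycles `(Ω, δ, T)` in the sense of Connes of odd dimension take the
same value on `u` and on `γ`. We prove this if all elements `g ≠ 1` of `G` are `Good`, with
`ℤ` replaced by any field of characteristic zero and without conditions on the values of the cycle on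
the tuples of group elements with product `≠ 1`; and for arbitrary coefficient rings `B` we prove that
the value on `u` is the contribution of the tuples with product `1`. With the cycles of dimension
one given by derivations of fields this shows that `det ρ(u) / det ρ(γ)` is algebraic over `K` for
every invertible matrix `u` over `K[G]` and every representation `ρ` of `G` over every extension field of `K`.
So for `K` algebraically closed the quotient is constant in families of representations
parametrised by irreducible varieties, for example on the components of the varieties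
`Hom(G, GL_r)` (if `Wh(G) = 0` and `u` is a matrix over `ℤ[G]`, it is `± 1`).

`Good G g`: `g` has infinite order and each finitely generated subgroup `H` of `G` containing `g` has
one of the properties

* `LinC`: the centraliser of `g` in `H` has a representation of finite degree over some field, of any
  characteristic, in which `g` has infinite order;
* `CohC`: the centraliser of `g` in `H` has a homomorphism `f` to a group `C'` (for example to itself) such
  that `f g` is central of infinite order and `H^(2 j + 2)(C' / ⟨f g⟩; ℚ) = 0` for some `j ≥ 0`; for example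
  this is so if `C' / ⟨f g⟩` has finite cohomological dimension over `ℚ`.

So the theorem holds for the torsion-free groups in the class `LinCls` of the groups such that in all
finitely generated subgroups the elements of infinite order have `LinC`. By (4) it contains all linear
groups over fields of any characteristic, the groups `Out(F_n)` and `Aut(F_n)`, the groups of
automorphisms of finitely generated residually torsion-free nilpotent groups, and the groups of germs of
diffeomorphisms and of automorphisms of varieties fixing a point; and it is closed under subgroups,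
overgroups of finite index, finite direct products, wreath products with finite groups, directed
unions, and extensions by finitely generated residually torsion-free nilpotent groups with trivial
centre, for example by free groups of finite rank `≥ 2` and fundamental groups of closed orientable
surfaces of genus `≥ 2`. The Farrell-Jones conjecture is open for linear groups and, to our knowledge, for
the groups `Out(F_n)`.

Let `word δ ρ n u v` be the matrix over `Ω[G]` whose coefficient at `h` is the sum of the terms of
`v δu (δv δu) ^ n` with product `h`; `compT T (word δ ρ n u v) g` is the component at the conjugacy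
class of `g` of the value `onM δ T ρ n u v = T (v δu (δv δu) ^ n)`, `v = u⁻¹`.

Idea of the proof. `K_1` is reduced to `K_0` by an idempotent over forms on the interval with values in
`2 × 2` matrices, higher dimensional cycles to traces by Fedosov's product. For traces one evaluates
functions of closed polygons in `G` on `e ⊗ ⋯ ⊗ e`. The Euler class of the centraliser as an
extension by `g` is represented by the coboundary of a skew function `b` with `b(u, g v) = b(u, v) + 2`. The
evaluation of the Pfaffian of `b`, bordered by `1`, is a nonzero multiple of the trace at `g`, by a sign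
reversing involution which uses rotations of polygons. For `LinC` the function `b` is
`tr (N (R_u R_v - R_v R_u))` for operators on a space of finite dimension (`N` the nilpotent part of
`g`), so its large Pfaffians are zero; in the case `CohC` the bordered Pfaffian is a coboundary.
The element `γ` is given by the determinant over the group algebra of the torsion-free abelian
quotient, and the calculation modulo large primes of the starting results gives the value of the
component at `1` of the cycles of dimension `≥ 3`.
-/

namespace Pool.Agent.Results.MP_8f66f0_al.CentralizerCycles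

open Pool.Agent.V11187.DG (Cyc onM onElt value word compT supp)
open Pool.Agent.H416.LG (Good OnLinear)
open Pool.Agent.H416.WR (LinCls Closed Members)

universe u v w x y z

/-- For all coefficient rings `B`, all cycles of odd dimension over `B[G]` and all invertible matrices
over `B[G]`, the component of the value at the conjugacy class of `g` is a torsion element. -/
def Torsion (G : Type w) [Group G] (g : G) : Prop :=
  ∀ (K : Type u) [CommRing K] (B : Type y) [Ring B] (Ω : Type v) [Ring Ω] [Algebra K Ω]
    (𝒜 : ℕ → Submodule K Ω) [GradedAlgebra 𝒜] (M : Type x) [AddCommGroup M] [Module K M]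
    (δ : Ω →ₗ[K] Ω) (T : Ω →ₗ[K] M) (n : ℕ), Cyc (2 * n + 1) 𝒜 δ T →
    ∀ ρ : MonoidAlgebra B G →+* Ω, (∀ a, ρ a ∈ 𝒜 0) →
    ∀ (d : ℕ) (u v : Matrix (Fin d) (Fin d) (MonoidAlgebra B G)), u * v = 1 → v * u = 1 →
      ∃ k : ℤ, k ≠ 0 ∧ k • compT T (word δ ρ n u v) g = 0

/-- For all coefficient rings `B`, all cycles of odd dimension over `B[G]` with values in torsion-free
groups and all invertible matrices over `B[G]`, the value is its component at `1`. -/
def OnlyOne (G : Type w) [Group G] : Prop :=
  ∀ (K : Type u) [CommRing K] (B : Type y) [Ring B] (Ω : Type v) [Ring Ω] [Algebra K Ω]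
    (𝒜 : ℕ → Submodule K Ω) [GradedAlgebra 𝒜] (M : Type x) [AddCommGroup M] [Module K M]
    (δ : Ω →ₗ[K] Ω) (T : Ω →ₗ[K] M) (n : ℕ), (∀ (k : ℤ) (z : M), k ≠ 0 → k • z = 0 → z = 0) →
    Cyc (2 * n + 1) 𝒜 δ T → ∀ ρ : MonoidAlgebra B G →+* Ω, (∀ a, ρ a ∈ 𝒜 0) →
    ∀ (d : ℕ) (u v : Matrix (Fin d) (Fin d) (MonoidAlgebra B G)), u * v = 1 → v * u = 1 →
      onM δ T ρ n u v = compT T (word δ ρ n u v) 1

/-- The values of the cycle on the tuples of elements of `H` with product `1` lie in the module
generated by a finite set over a finitely generated subring of `K`. -/
def FinType {K : Type u} [Field K] {G : Type w} [Group G] {Ω : Type v} [Ring Ω] [Algebra K Ω]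
    {M : Type x} [AddCommGroup M] [Module K M] (δ : Ω →ₗ[K] Ω) (T : Ω →ₗ[K] M) (N : ℕ)
    (ρ : MonoidAlgebra K G →ₐ[K] Ω) (H : Subgroup G) : Prop :=
  ∃ (s : Finset K) (F : Finset M), ∀ (a : H) (l : List H),
    l.length = N → a * l.prod = 1 → value δ T ρ a (l.map Subtype.val) ∈
      Submodule.span (Algebra.adjoin ℤ (s : Set K)) (F : Set M)

/-- All cycles of odd dimension with the property `FinType` take the same value on `u` and `γ`. -/
def SameValues (K : Type u) [Field K] {G : Type w} [Group G] {d : ℕ}
    (u v : Matrix (Fin d) (Fin d) (MonoidAlgebra K G)) (γ : G) : Prop :=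
  ∀ (Ω : Type v) [Ring Ω] [Algebra K Ω] (𝒜 : ℕ → Submodule K Ω) [GradedAlgebra 𝒜]
    (M : Type x) [AddCommGroup M] [Module K M] (δ : Ω →ₗ[K] Ω) (T : Ω →ₗ[K] M) (n : ℕ),
    Cyc (2 * n + 1) 𝒜 δ T → ∀ ρ : MonoidAlgebra K G →ₐ[K] Ω, (∀ a, ρ a ∈ 𝒜 0) →
    FinType δ T (2 * n + 1) ρ (supp u v) →
    onM δ T (ρ : MonoidAlgebra K G →+* Ω) n u v = onElt δ T ρ n γ

/-- For every representation `ρ` of `G` over an extension field `L` of `K`, the determinant of the
matrix `ρ(u)` divided by the determinant of `ρ(γ)` is algebraic over `K`. -/
def DetAlgebraic (K : Type u) [Field K] {G : Type w} [Group G] {d : ℕ}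
    (u : Matrix (Fin d) (Fin d) (MonoidAlgebra K G)) (γ : G) : Prop :=
  ∀ (L : Type v) [Field L] [Algebra K L] (r : ℕ) (ρ : G →* GL (Fin r) L),
    IsAlgebraic K ((Matrix.of fun x y : Fin d × Fin r =>
      (u x.1 y.1).coeff.sum fun g a => algebraMap K L a * (ρ g).val x.2 y.2).det / (ρ γ).val.det)

/-- (1) The components at the `Good` elements `g` of any group are torsion elements.
(2) If all elements `g ≠ 1` are `Good` then the values with arbitrary coefficient rings are
the components at `1`, and (3) for the coefficient fields `K` of characteristic zero they are the values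
on a group element `γ`, and the quotients of the determinants of `u` and of `γ` in all representations
over extension fields of `K` are algebraic over `K`.
(4) An element `g` of `G` is `Good` if each finitely generated subgroup containing `g` is mapped to some
`GL_n(F)`, `F` a field, with image of `g` of infinite order, or if the image of `g` under a homomorphism
to a group in the class `LinCls` has infinite order. The class `LinCls` has the closure properties
`Closed` and contains the groups `Members`. -/
theorem result :
    (∀ (G : Type w) [Group G] (g : G), Good.{w, z} G g → Torsion.{u, v, w, x, y} G g) ∧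
    (∀ (G : Type w) [Group G], (∀ g : G, g ≠ 1 → Good.{w, z} G g) → OnlyOne.{u, v, w, x, y} G) ∧
    (∀ (G : Type w) [Group G], (∀ g : G, g ≠ 1 → Good.{w, z} G g) →
      ∀ (K : Type u) [Field K] [CharZero K] (d : ℕ)
        (u v : Matrix (Fin d) (Fin d) (MonoidAlgebra K G)), u * v = 1 → v * u = 1 →
        ∃ γ : G, SameValues.{u, v, w, v} K u v γ ∧ DetAlgebraic.{u, v, w} K u γ) ∧
    (∀ (G : Type w) [Group G] (g : G), OnLinear.{w, z} G g → Good.{w, z} G g) ∧
    (∀ (G G' : Type w) [Group G] [Group G'] (f : G →* G') (g : G), LinCls.{w, w} G' →
      ¬ IsOfFinOrder (f g) → Good.{w, w} G g) ∧ Closed.{w} ∧ Members.{w} := by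
  refine ⟨?_, ?_, ?_, fun G _ g hg => Good.of_linear hg,
    fun G G' _ _ f g h hg => Pool.Agent.H416.WR.good_of_hom f g h hg,
    Pool.Agent.H416.WR.closed, Pool.Agent.H416.WR.members⟩
  · intro G _ g hg K _ B _ Ω _ _ 𝒜 _ M _ _ δ T n hc ρ hρ d u v huv hvu
    exact Pool.Agent.H416.LG.GE.torM hg.van hc hρ u v huv hvu
  · intro G _ hG K _ B _ Ω _ _ 𝒜 _ M _ _ δ T n hM hc ρ hρ d u v huv hvu
    exact Pool.Agent.H416.LG.GE.onM_one (fun g hg => (hG g hg).van) hM hc hρ u v huv hvu
  · intro G _ hG K _ _ d u v huv hvu
    obtain ⟨γ, _, hγ⟩ := Pool.Agent.H416.LG.GE.onM_supp.{u, v, w, v, z} hG u v huv hvu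
    refine ⟨γ, hγ, fun L _ _ r ρ => ?_⟩
    exact Pool.Agent.H416.DT.det_alg Pool.Agent.H640.DT2.DT2_holds u v huv γ
      (fun D φ => hγ _ _ _ _ _ 0 (Pool.Agent.H416.DT.cycM D r) (Pool.Agent.H416.DT.inc φ)
        (Pool.Agent.H416.DT.inc_mem φ) (Pool.Agent.H416.DT.finType_inc D φ _
          (Pool.Agent.H416.QG.supp_fg u v))) ρ

end Pool.Agent.Results.MP_8f66f0_al.CentralizerCycles
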