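import Pool.Agent.H414.W2.Tors
import Pool.Agent.H414.W2.Com

/-!
# Determinants of Whitehead elements of groups with unbounded commensurated sets

Let `Γ` be a group such that for every finitely generated subgroup `H` and every `c ≠ 1` in `H`
either (a) there is an additive function from the centraliser of `c` in `H` to `ℤ` which does not
vanish at `c`, or (b) `H` acts on a set `X` with a commensurated subset `S` such that the powers of
`c` move `S` arbitrarily far; this holds for all torsion-free groups which act properly on CAT(0)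
cube complexes of arbitrary dimension, `S` being the set of the half spaces which contain a vertex.
For every invertible matrix `A` over `ℤΓ` there are a sign `ε` and an element `γ` of `Γ` such that
the determinant of `A` in every finite dimensional representation `ρ` of `Γ` over every field is
the determinant `ε ^ d * det ρ(γ)` of the trivial unit `ε γ`. There is no condition on roots.

Outline. Let `D = ∑_c D_c` be the Dennis trace of `A`, `D_c ∈ H_1(C(c))`. By (a) it has rational
coefficients `e_c` at the classes `c ≠ 1`. There is a large prime `l ≡ 1` modulo the order of a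
finite quotient `G` such that the sums of the `e_c` over the blocks `{c : c ^ l ~ b}`, `b ≠ 1`,
vanish. The relation `D = ψ_p D + ∑_w Y_w [w]` modulo `p ^ i` determines the sums of the diagonal
coefficients `Y_w` over the blocks modulo `p ^ N`, and shows that they vanish; as `b` is not
infinitely `p`-divisible, the image of the part of `D` at the block in `⊕ H_1(C_G(q)) / p ^ N` is
zero. Therefore the logarithmic derivatives of the determinants are those of `γ`.
-/

set_option autoImplicit false

namespace Pool.Agent.Results.MP_8f66f0_al.CommensuratedSets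

open Pool.Agent.Y72.Log Pool.Agent.Y72.Dt H219.Wh Pool.Agent.H414.W2

universe u v w

theorem result {Γ : Type u} [Group Γ]
    (hΓ : ∀ H : Subgroup Γ, H.FG → ∀ c : H, c ≠ 1 →
      (∃ f : H → ℤ, (∀ x y : H, x * c = c * x → y * c = c * y → f (x * y) = f x + f y) ∧
        f c ≠ 0) ∨
      (∃ (X : Type v) (_ : MulAction H X) (S : Set X),
        (∀ g : H, {x | x ∈ S ∧ g • x ∉ S}.Finite) ∧
        ∀ m : ℕ, ∃ k : ℤ, m < {x | x ∈ S ∧ c ^ k • x ∉ S}.ncard))
    {n : ℕ} (A : (Matrix (Fin n) (Fin n) (MonoidAlgebra ℤ Γ))ˣ) :
    ∃ ε : ℤ, (ε = 1 ∨ ε = -1) ∧ ∃ γ : Γ, ∀ (L : Type w) [Field L] (d : ℕ)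
      (ρ : Γ →* GL (Fin d) L),
      (Matrix.of fun x y : Fin n × Fin d =>
        (A.val x.1 y.1).coeff.sum fun g a => (a : L) * (ρ g).val x.2 y.2).det =
          (ε : L) ^ d * (ρ γ).val.det := by
  obtain ⟨H, hH, hS⟩ := exists_fg A
  obtain ⟨A', hA'⟩ := exists_sub A H hS
  have hfg : Group.FG H := (Group.fg_iff_subgroup_fg H).2 hH
  have hn : Cen H := by
    intro c hc
    rcases hΓ H hH c hc with h | ⟨X, hX, S, h1, h2⟩
    · exact h
    · exact exists_add h1 c h2
  refine ⟨DD (trv H ℤ) A'.val, sign_pm A', (gamA A' : H), fun L _ d ρ => ?_⟩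
  let ρ' : Γ →* Matrix (Fin d) (Fin d) L := (Units.coeHom _).comp ρ
  have h1 := all_reps_sign hn A' (ρ'.comp H.subtype)
  have h2 : DD (ρ'.comp H.subtype) A'.val = (Matrix.of fun x y : Fin n × Fin d =>
      (A.val x.1 y.1).coeff.sum fun g a => (a : L) * (ρ g).val x.2 y.2).det := by
    unfold DD
    rw [← blkR_mpU, ← hA']
    congr 1
    ext1 x y
    exact lrG_apply ρ' (A.val x.1 y.1) x.2 y.2
  rw [h2, Int.cast_pow] at h1
  exact h1

end Pool.Agent.Results.MP_8f66f0_al.CommensuratedSets
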