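import Pool.Agent.H414.W1.All3
import Pool.Agent.H414.W1.Tfn

/-!
# Determinants of Whitehead elements of locally residually torsion-free nilpotent groups

Let `Γ` be a group all of whose finitely generated subgroups are residually torsion-free nilpotent.
For every invertible matrix `A` over `ℤΓ` there are a sign `ε` and an element `γ` of `Γ` such that
the determinant of `A` in every finite dimensional representation `ρ` of `Γ` over every field is
the determinant `ε ^ d * det ρ(γ)` of the trivial unit `ε γ`.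
-/

set_option autoImplicit false

namespace Pool.Agent.Results.MP_8f66f0_al.ResiduallyTorsionFreeNilpotent

open Pool.Agent.Y72.Log Pool.Agent.Y72.Dt H219.Wh Pool.Agent.H414.W1

universe u w

theorem result {Γ : Type u} [Group Γ]
    (hΓ : ∀ H : Subgroup Γ, H.FG → ∀ h : H, h ≠ 1 → ∃ (N : Subgroup H) (_ : N.Normal),
      Group.IsNilpotent (H ⧸ N) ∧ (∀ (x : H ⧸ N) (m : ℕ), 0 < m → x ^ m = 1 → x = 1) ∧ h ∉ N)
    {n : ℕ} (A : (Matrix (Fin n) (Fin n) (MonoidAlgebra ℤ Γ))ˣ) :
    ∃ ε : ℤ, (ε = 1 ∨ ε = -1) ∧ ∃ γ : Γ, ∀ (L : Type w) [Field L] (d : ℕ)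
      (ρ : Γ →* GL (Fin d) L),
      (Matrix.of fun x y : Fin n × Fin d =>
        (A.val x.1 y.1).coeff.sum fun g a => (a : L) * (ρ g).val x.2 y.2).det =
          (ε : L) ^ d * (ρ γ).val.det := by
  obtain ⟨H, hH, hS⟩ := exists_fg A
  obtain ⟨A', hA'⟩ := exists_sub A H hS
  have hfg : Group.FG H := (Group.fg_iff_subgroup_fg H).2 hH
  have hn : Ru H := ResTFN.ru (hΓ H hH)
  refine ⟨DD (trv H ℤ) A'.val, sign_pm A', (gamA A' : H), fun L _ d ρ => ?_⟩
  let ρ' : Γ →* Matrix (Fin d) (Fin d) L := (Units.coeHom _).comp ρ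
  have h1 := all_reps_sign hn A' (ρ'.comp H.subtype)
  have h2 : DD (ρ'.comp H.subtype) A'.val = (Matrix.of fun x y : Fin n × Fin d =>
      (A.val x.1 y.1).coeff.sum fun g a => (a : L) * (ρ g).val x.2 y.2).det := by
    unfold DD
    rw [← blkR_mpU, ← hA']
    congr 1
    ext1 x y
    exact lrG_apply ρ' (A.val x.1 y.1) x.2 y.2
  rw [h2, Int.cast_pow] at h1
  exact h1

end Pool.Agent.Results.MP_8f66f0_al.ResiduallyTorsionFreeNilpotent
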