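import Pool.Agent.H751.PC.Ell
import Pool.Agent.H751.PC.Small

/-!
# Groups acting with infinite stabilizers on two-dimensional complexes of nonpositive curvature

`C` is any class of groups with the closure properties `FJClass C`: it contains the abelian groups,
it is closed under groups that embed and under colimits of directed systems (with arbitrary
structure maps), and `G` is in `C` if `N` is a normal subgroup such that `G ⧸ N`, `N` and the
preimages `N⟨g⟩` of the infinite cyclic subgroups of `G ⧸ N` are in `C`. All this is known for the
class of the groups that satisfy the K- and L-theoretic Farrell–Jones conjecture with coefficients
and finite wreath products; the torsion-free groups in this class have Whitehead group zero.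

`P` is a property of polygonal complexes with a group action which is hereditary (`Hered P`: it is
inherited under equivariant immersions). Examples: `FlatP`: piecewise Euclidean of nonpositive
curvature, i.e. there are invariant lengths of the edges and angles such that the faces are convex
Euclidean polygons and the closed paths in the links of the vertices have length at least `2 π`;
`Hyp`: small cancellation complexes `C(p)-T(q)` with `1/p + 1/q < 1/2` and complexes of negative
combinatorial curvature. `GeomP P H`: the group `H` acts properly and cocompactly on a simply
connected locally finite complex with the property `P`; these are CAT(0) groups or hyperbolic
groups, and so they are in the class of the Farrell–Jones groups.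

Theorem. Let `C` contain the groups `GeomP P`, and let `G` act by automorphisms on a simply connected
polygonal complex `X` with the property `P`, such that all elements that fix a vertex have finite
orbits (`FinOrb`; this is so if `X` is locally finite, and also if the stabilizers are torsion
groups). The number of orbits of vertices, edges and faces is arbitrary, and the stabilizers may be
infinite and need not be finitely generated. Let `f` be a homomorphism from `G` to a group of `C`,
such that the kernel of `f` acts with finite stabilizers on the vertices. Then `G` is in `C`.

Examples. (a) All torsion-free groups `G` acting on a locally finite complex `X` as above such that
a homomorphism from `G` to a Farrell–Jones group is injective on one vertex stabilizer: the other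
stabilizers are commensurable to it, so the kernel acts freely. (b) Let `X` be locally finite and
let one stabilizer be commensurable to a group with infinite nontrivial conjugacy classes whose abstract
commensurator is a Farrell–Jones group, for example to `SL_n(ℤ)`, `n ≥ 3` odd, with the
commensurator `PGL_n(ℚ)` extended by the inverse transpose: `G` acts by conjugation on the germs of
subgroups of finite index of the stabilizer, and this homomorphism is injective on a subgroup of
finite index of the stabilizer.

Outline of the proof. For a finite set of edges and faces and a finitely generated subgroup `L` let
`Y` be the subcomplex consisting of their `L`-orbits. The group `H` of all lifts of the elements of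
`L` to the universal covering of the component of the base point acts cofinitely on the universal
covering, which is immersed in `X`, and `G` is the directed colimit of these groups, because `X` is
simply connected. The kernel of `f` acts properly, so these groups are in `GeomP P` if `G` is the
kernel of `f`. In the preimage `D` of an infinite cyclic subgroup the stabilizers are finite, or
they are commensurable infinite virtually cyclic groups, and by a pigeonhole argument every element
of `D` centralizes a subgroup of finite index of a stabilizer. So for `L ≤ D` there is an infinite
cyclic group `A`, centralized by `L`, of finite index in the stabilizers of `L`. It acts trivially
on the component of `Y` and lifts to a central subgroup of `H` that acts trivially on the covering,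
and `H` is a central extension of a group in `GeomP P` by a cyclic group.
-/

set_option autoImplicit false

namespace Pool.Agent.Results.MP_8f66f0_al.TwoComplexSymmetries

open Pool.Agent.H751.PC

theorem result :
    -- the two examples of hereditary properties
    Hered FlatP ∧ Hered Hyp ∧
    -- groups with a homomorphism whose kernel acts properly
    (∀ P : ∀ (H V : Type) [Group H] [MulAction H V], Cx V → Prop, Hered P →
      ∀ C : ∀ (H : Type) [Group H], Prop, FJClass C →
        (∀ (H : Type) [Group H], GeomP P H → C H) →
        ∀ (G V : Type) [Group G] [MulAction G V] [Nonempty V] (X : Cx V),
          X.SC → P G V X → Inv G X → FinOrb G V →
          ∀ (Q : Type) [Group Q], C Q → ∀ f : G →* Q,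
            (∀ v : V, {g : G | g • v = v ∧ f g = 1}.Finite) → C G) := by
  refine ⟨flatP_hered, hyp_hered, ?_⟩
  intro P hP C hC hG G V _ _ _ X hX hPX hI hFO Q _ hQ f hfin
  exact hom_main hP hC hG X hX hPX hI hFO hQ f hfin

end Pool.Agent.Results.MP_8f66f0_al.TwoComplexSymmetries
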